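import Pool.Agent.helper3.SP.SpecPP

namespace TP

open DP MeasureTheory

theorem PP13_in (ℓ : ℕ) (p g : V) (d n t : ℕ) (ht : t ≤ n) (h : zpt p (2 * t * ℓ) d = g) :
    g ∈ scel ℓ (p, d, n) := by
  unfold scel
  rw [List.mem_map]
  exact ⟨t, List.mem_range.2 (by simp only; omega), h⟩

theorem PP13_fm (ℓ : ℕ) (sg : List (V × ℕ × ℕ)) (p g : V) (d n t : ℕ) (hs : (p, d, n) ∈ sg)
    (ht : t ≤ n) (h : zpt p (2 * t * ℓ) d = g) : g ∈ sg.flatMap (scel ℓ) :=
  List.mem_flatMap.2 ⟨(p, d, n), hs, PP13_in ℓ p g d n t ht h⟩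

theorem PP13_sd0 (u : V) : sd u u = 0 := by
  simp [sd]

theorem PP13_sd1 (u v : V) (m : ℕ) (h : (m : ℤ) ≤ |u.1 - v.1|) : m ≤ sd u v := by
  unfold sd
  refine le_trans ?_ (le_max_left _ _)
  rw [← Int.natCast_natAbs] at h
  exact_mod_cast h

theorem PP13_sd2 (u v : V) (m : ℕ) (h : (m : ℤ) ≤ |u.2 - v.2|) : m ≤ sd u v := by
  unfold sd
  refine le_trans ?_ (le_max_right _ _)
  rw [← Int.natCast_natAbs] at h
  exact_mod_cast h

theorem PP13_hubB (z : V) (ℓ : ℕ) (e : Bool) (hℓ : 1 ≤ ℓ) : (hubB z ℓ e).ok := by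
  refine ⟨hℓ, by simp [hubB], ?_, ?_⟩
  · simp only [hubB, Jnd]
    refine ⟨Or.inr ?_, Or.inr ?_, Or.inr ?_, Or.inr ?_, Or.inl trivial, trivial⟩
    · refine PP13_fm ℓ _ (z.1 + sge e * (128 * ℓ), z.2) _ 3 64 64 (by simp) le_rfl ?_
      refine Prod.ext ?_ ?_ <;> simp [zpt]
    · refine PP13_fm ℓ _ (z.1 + sge e * (128 * ℓ), z.2) _ 1 64 64 (by simp) le_rfl ?_
      refine Prod.ext ?_ ?_ <;> simp [zpt]
    · refine PP13_fm ℓ _ (z.1 + sge e * (32 * ℓ), z.2) _ (dre e) 48 48 (by simp) le_rfl ?_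
      cases e <;> refine Prod.ext ?_ ?_ <;> simp [zpt, dre, sge] <;> ring
    · refine PP13_fm ℓ _ (z.1 + sge e * (32 * ℓ), z.2) _ (dre e) 48 48 (by simp) le_rfl ?_
      cases e <;> refine Prod.ext ?_ ?_ <;> simp [zpt, dre, sge] <;> ring
  · intro q hq
    simp only [hubB, List.mem_cons, List.not_mem_nil, or_false] at hq
    rcases hq with rfl | rfl
    · refine ⟨⟨_, PP13_fm ℓ _ (z.1 + sge e * (128 * ℓ), z.2 + 128 * ℓ) _ (dre e) 64 64
        (by simp [hubB]) le_rfl rfl, ?_⟩, ⟨_, PP13_fm ℓ _ (z.1 + sge e * (128 * ℓ), z.2 + 128 * ℓ) _ (dre e) 64 0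
        (by simp [hubB]) (by omega) rfl, ?_⟩⟩
      · have : zpt (z.1 + sge e * (128 * ℓ), z.2 + 128 * ℓ) (2 * 64 * ℓ) (dre e) =
            (z.1 + sge e * (256 * ℓ), z.2 + 128 * ℓ) := by
          cases e <;> refine Prod.ext ?_ ?_ <;> simp [zpt, dre, sge] <;> ring
        rw [this, PP13_sd0]; simp only [hubB]; omega
      · refine PP13_sd1 _ _ _ ?_
        cases e <;> simp [zpt, dre, sge, hubB] <;> rw [le_abs] <;> omega
    · refine ⟨⟨_, PP13_fm ℓ _ (z.1 + sge e * (128 * ℓ), z.2 - 128 * ℓ) _ (dre e) 64 64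
        (by simp [hubB]) le_rfl rfl, ?_⟩, ⟨_, PP13_fm ℓ _ (z.1 + sge e * (128 * ℓ), z.2 - 128 * ℓ) _ (dre e) 64 0
        (by simp [hubB]) (by omega) rfl, ?_⟩⟩
      · have : zpt (z.1 + sge e * (128 * ℓ), z.2 - 128 * ℓ) (2 * 64 * ℓ) (dre e) =
            (z.1 + sge e * (256 * ℓ), z.2 - 128 * ℓ) := by
          cases e <;> refine Prod.ext ?_ ?_ <;> simp [zpt, dre, sge] <;> ring
        rw [this, PP13_sd0]; simp only [hubB]; omega
      · refine PP13_sd1 _ _ _ ?_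
        cases e <;> simp [zpt, dre, sge, hubB] <;> rw [le_abs] <;> omega

theorem PP13_hubW (z : V) (ℓ : ℕ) (e : Bool) (hℓ : 1 ≤ ℓ) : (hubW z ℓ e).ok := by
  refine ⟨hℓ, by simp [hubW], ?_, ?_⟩
  · simp only [hubW, Jnd]
    exact ⟨Or.inl trivial, trivial⟩
  · intro q hq
    simp only [hubW, List.mem_cons, List.not_mem_nil, or_false] at hq
    subst hq
    refine ⟨⟨_, PP13_fm ℓ _ (z.1, z.2 + sge e * (32 * ℓ)) _ (due e) 112 112
        (by simp [hubW]) le_rfl rfl, ?_⟩, ⟨_, PP13_fm ℓ _ (z.1, z.2 + sge e * (32 * ℓ)) _ (due e) 112 0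
        (by simp [hubW]) (by omega) rfl, ?_⟩⟩
    · have : zpt (z.1, z.2 + sge e * (32 * ℓ)) (2 * 112 * ℓ) (due e) =
            (z.1, z.2 + sge e * (256 * ℓ)) := by
        cases e <;> refine Prod.ext ?_ ?_ <;> simp [zpt, due, sge] <;> ring
      rw [this, PP13_sd0]; simp only [hubW]; omega
    · refine PP13_sd2 _ _ _ ?_
      cases e <;> simp [zpt, due, sge, hubW] <;> rw [le_abs] <;> omega

theorem PP13_outB (x : V) (ℓ : ℕ) (e : Bool) (hℓ : 1 ≤ ℓ) : (outB x ℓ e).ok := by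
  refine ⟨hℓ, by simp [outB], ?_, ?_⟩
  · simp only [outB, Jnd]
    refine ⟨Or.inr ?_, Or.inr ?_, Or.inr ?_, Or.inl trivial, trivial⟩
    · refine PP13_fm ℓ _ (x.1 + sge e * (64 * ℓ), x.2 + 16 * ℓ) _ 3 16 8 (by simp) (by omega) ?_
      refine Prod.ext ?_ ?_ <;> simp [zpt]
    · refine PP13_fm ℓ _ (x.1 + sge e * (64 * ℓ), x.2 + 16 * ℓ) _ 3 16 16 (by simp) le_rfl ?_
      refine Prod.ext ?_ ?_ <;> simp [zpt] <;> ring
    · refine PP13_fm ℓ _ (x.1 + sge e * (32 * ℓ), x.2 + 16 * ℓ) _ (dre e) 16 16 (by simp) le_rfl ?_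
      cases e <;> refine Prod.ext ?_ ?_ <;> simp [zpt, dre, sge] <;> ring
  · intro q hq
    simp only [outB, List.mem_cons, List.not_mem_nil, or_false] at hq
    subst hq
    refine ⟨⟨_, PP13_fm ℓ _ (x.1 + sge e * (64 * ℓ), x.2) _ (dre e) 96 96
        (by simp [outB]) le_rfl rfl, ?_⟩, ⟨_, PP13_fm ℓ _ (x.1 + sge e * (64 * ℓ), x.2) _ (dre e) 96 0
        (by simp [outB]) (by omega) rfl, ?_⟩⟩
    · have : zpt (x.1 + sge e * (64 * ℓ), x.2) (2 * 96 * ℓ) (dre e) =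
            (x.1 + sge e * (256 * ℓ), x.2) := by
        cases e <;> refine Prod.ext ?_ ?_ <;> simp [zpt, dre, sge] <;> ring
      rw [this, PP13_sd0]; simp only [outB]; omega
    · refine PP13_sd1 _ _ _ ?_
      cases e <;> simp [zpt, dre, sge, outB] <;> rw [le_abs] <;> omega

theorem PP13_midX (x : V) (ℓ S : ℕ) (e : Bool) (hℓ : 1 ≤ ℓ) : (midX x ℓ S e).ok := by
  refine ⟨hℓ, by simp [midX], ?_, ?_⟩
  · simp only [midX, Jnd]
    exact ⟨Or.inl trivial, trivial⟩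
  · intro q hq
    simp [midX] at hq

theorem PP13_S (S : ℕ) (hS : 4 ≤ S) : 16 * S ≤ S ^ 3 := by
  have : S ^ 3 = S * S * S := by ring
  rw [this]
  exact Nat.mul_le_mul_right _ (by nlinarith)

theorem PP13_midY (x : V) (ℓ S : ℕ) (e : Bool) (hℓ : 1 ≤ ℓ) (hS : 4 ≤ S) : (midY x ℓ S e).ok := by
  have hS3 := PP13_S S hS
  have c1 : ((16 * S ^ 3 - 32 * S : ℕ) : ℤ) = 16 * S ^ 3 - 32 * S := by
    rw [Nat.cast_sub (by omega)]; push_cast; ring
  have c2 : ((S ^ 3 - 1 : ℕ) : ℤ) = S ^ 3 - 1 := by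
    rw [Nat.cast_sub (by omega)]; push_cast; ring
  have c3 : ((16 * S - 16 : ℕ) : ℤ) = 16 * S - 16 := by
    rw [Nat.cast_sub (by omega)]; push_cast; ring
  refine ⟨hℓ, by simp [midY], ?_, ?_⟩
  · simp only [midY, Jnd]
    refine ⟨Or.inr ?_, Or.inr ?_, Or.inl trivial, trivial⟩
    · refine PP13_fm ℓ _ (x.1 + 64 * S * ℓ, x.2 + sge e * (16 * ℓ)) _ (due e) (8 * (S ^ 3 - 1))
        (8 * (S ^ 3 - 1)) (by simp) le_rfl ?_
      cases e <;> refine Prod.ext ?_ ?_ <;> simp only [zpt, due, sge] <;> simp [-Nat.cast_mul, -Nat.cast_sub] <;>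
        rw [c2] <;> push_cast <;> ring
    · refine PP13_fm ℓ _ (x.1 + 32 * S * ℓ + 32 * ℓ, x.2 + sge e * (16 * ℓ)) _ 0 (16 * S - 16)
        (16 * S - 16) (by simp) le_rfl ?_
      refine Prod.ext ?_ ?_
      · simp only [zpt]
        simp [-Nat.cast_mul, -Nat.cast_sub]
        rw [c3]; push_cast; ring
      · simp [zpt]
  · intro q hq
    simp only [midY, List.mem_cons, List.not_mem_nil, or_false] at hq
    subst hq
    refine ⟨⟨_, PP13_fm ℓ _ (x.1 + 64 * S * ℓ, x.2 + sge e * (16 * S ^ 3 * ℓ)) _ 0 (16 * S ^ 3 - 32 * S)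
        (16 * S ^ 3 - 32 * S) (by simp [midY]) le_rfl rfl, ?_⟩,
        ⟨_, PP13_fm ℓ _ (x.1 + 64 * S * ℓ, x.2 + sge e * (16 * S ^ 3 * ℓ)) _ 0 (16 * S ^ 3 - 32 * S) 0
        (by simp [midY]) (by omega) rfl, ?_⟩⟩
    · have : zpt (x.1 + 64 * S * ℓ, x.2 + sge e * (16 * S ^ 3 * ℓ)) (2 * (16 * S ^ 3 - 32 * S) * ℓ) 0 =
            (x.1 + 32 * S ^ 3 * ℓ, x.2 + sge e * (16 * S ^ 3 * ℓ)) := by
        refine Prod.ext ?_ ?_
        · simp only [zpt]
          simp [-Nat.cast_mul, -Nat.cast_sub]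
          rw [c1]; push_cast; ring
        · simp [zpt]
      rw [this, PP13_sd0]; simp only [midY]
      rw [zero_add]
      exact Nat.mul_le_mul_right _ (by omega)
    · refine PP13_sd1 _ _ _ ?_
      simp only [zpt, midY]
      simp
      rw [le_abs]
      left
      have h1 : (16 * S : ℤ) ≤ S ^ 3 := by exact_mod_cast hS3
      have h2 : (4 : ℤ) ≤ S := by exact_mod_cast hS
      have h3 : (1 : ℤ) ≤ ℓ := by exact_mod_cast hℓ
      nlinarith [mul_le_mul_of_nonneg_right h1 (by omega : (0 : ℤ) ≤ ℓ), mul_le_mul_of_nonneg_right h2 (by omega : (0 : ℤ) ≤ ℓ)]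

theorem PP13_midZ (x : V) (ℓ S : ℕ) (e : Bool) (hℓ : 1 ≤ ℓ) (hS : 4 ≤ S) : (midZ x ℓ S e).ok := by
  have hS3 := PP13_S S hS
  have c1 : ((16 * S ^ 3 - 32 * S : ℕ) : ℤ) = 16 * S ^ 3 - 32 * S := by
    rw [Nat.cast_sub (by omega)]; push_cast; ring
  have c2 : ((S ^ 3 - 1 : ℕ) : ℤ) = S ^ 3 - 1 := by
    rw [Nat.cast_sub (by omega)]; push_cast; ring
  have c3 : ((32 * S - 16 : ℕ) : ℤ) = 32 * S - 16 := by
    rw [Nat.cast_sub (by omega)]; push_cast; ring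
  refine ⟨hℓ, by simp [midZ], ?_, ?_⟩
  · simp only [midZ, Jnd]
    refine ⟨Or.inr ?_, Or.inr ?_, Or.inl trivial, trivial⟩
    · refine PP13_fm ℓ _ (x.1 - 64 * S * ℓ, x.2 + sge e * (16 * ℓ)) _ (due e) (8 * (S ^ 3 - 1))
        (8 * (S ^ 3 - 1)) (by simp) le_rfl ?_
      cases e <;> refine Prod.ext ?_ ?_ <;> simp only [zpt, due, sge] <;> simp [-Nat.cast_mul, -Nat.cast_sub] <;>
        rw [c2] <;> push_cast <;> ring
    · refine PP13_fm ℓ _ (x.1 - 32 * ℓ, x.2 + sge e * (16 * ℓ)) _ 2 (32 * S - 16)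
        (32 * S - 16) (by simp) le_rfl ?_
      refine Prod.ext ?_ ?_
      · simp only [zpt]
        simp [-Nat.cast_mul, -Nat.cast_sub]
        rw [c3]; push_cast; ring
      · simp [zpt]
  · intro q hq
    simp only [midZ, List.mem_cons, List.not_mem_nil, or_false] at hq
    subst hq
    refine ⟨⟨_, PP13_fm ℓ _ (x.1 - 64 * S * ℓ, x.2 + sge e * (16 * S ^ 3 * ℓ)) _ 2 (16 * S ^ 3 - 32 * S)
        (16 * S ^ 3 - 32 * S) (by simp [midZ]) le_rfl rfl, ?_⟩,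
        ⟨_, PP13_fm ℓ _ (x.1 - 64 * S * ℓ, x.2 + sge e * (16 * S ^ 3 * ℓ)) _ 2 (16 * S ^ 3 - 32 * S) 0
        (by simp [midZ]) (by omega) rfl, ?_⟩⟩
    · have : zpt (x.1 - 64 * S * ℓ, x.2 + sge e * (16 * S ^ 3 * ℓ)) (2 * (16 * S ^ 3 - 32 * S) * ℓ) 2 =
            (x.1 - 32 * S ^ 3 * ℓ, x.2 + sge e * (16 * S ^ 3 * ℓ)) := by
        refine Prod.ext ?_ ?_
        · simp only [zpt]
          simp [-Nat.cast_mul, -Nat.cast_sub]
          rw [c1]; push_cast; ring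
        · simp [zpt]
      rw [this, PP13_sd0]; simp only [midZ]
      rw [zero_add]
      exact Nat.mul_le_mul_right _ (by omega)
    · refine PP13_sd1 _ _ _ ?_
      simp only [zpt, midZ]
      simp
      rw [le_abs]
      right
      have h1 : (16 * S : ℤ) ≤ S ^ 3 := by exact_mod_cast hS3
      have h2 : (4 : ℤ) ≤ S := by exact_mod_cast hS
      have h3 : (1 : ℤ) ≤ ℓ := by exact_mod_cast hℓ
      nlinarith [mul_le_mul_of_nonneg_right h1 (by omega : (0 : ℤ) ≤ ℓ), mul_le_mul_of_nonneg_right h2 (by omega : (0 : ℤ) ≤ ℓ)]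

theorem PP13_midW (x : V) (ℓ S : ℕ) (e : Bool) (hℓ : 1 ≤ ℓ) (hS : 4 ≤ S) : (midW x ℓ S e).ok := by
  have hS3 := PP13_S S hS
  have c1 : ((S ^ 3 - 1 : ℕ) : ℤ) = S ^ 3 - 1 := by
    rw [Nat.cast_sub (by omega)]; push_cast; ring
  have c2 : ((S - 1 : ℕ) : ℤ) = S - 1 := by
    rw [Nat.cast_sub (by omega)]; push_cast; ring
  refine ⟨hℓ, by simp [midW], ?_, ?_⟩
  · simp only [midW, Jnd]
    refine ⟨Or.inr ?_, Or.inr ?_, Or.inl trivial, trivial⟩
    · refine PP13_fm ℓ _ (x.1, x.2 + sge e * (32 * S * ℓ)) _ 0 (16 * S)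
        (16 * S) (by simp) le_rfl ?_
      refine Prod.ext ?_ ?_
      · have h : zpt (x.1, x.2 + sge e * (32 * S * ℓ)) (2 * (16 * S) * ℓ) 0 =
            (x.1 + ((2 * (16 * S) * ℓ : ℕ) : ℤ), x.2 + sge e * (32 * S * ℓ)) := by simp [zpt]
        rw [h]; push_cast; ring
      · simp [zpt]
    · refine PP13_fm ℓ _ (x.1, x.2 + sge e * (32 * ℓ)) _ (due e) (16 * (S ^ 3 - 1))
        (16 * (S - 1)) (by simp) (by omega) ?_
      cases e <;> refine Prod.ext ?_ ?_ <;> simp only [zpt, due, sge] <;> simp [-Nat.cast_mul, -Nat.cast_sub] <;>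
        rw [c2] <;> push_cast <;> ring
  · intro q hq
    simp only [midW, List.mem_cons, List.not_mem_nil, or_false] at hq
    subst hq
    refine ⟨⟨_, PP13_fm ℓ _ (x.1, x.2 + sge e * (32 * ℓ)) _ (due e) (16 * (S ^ 3 - 1))
        (16 * (S ^ 3 - 1)) (by simp [midW]) le_rfl rfl, ?_⟩,
        ⟨_, PP13_fm ℓ _ (x.1, x.2 + sge e * (32 * ℓ)) _ (due e) (16 * (S ^ 3 - 1)) 0
        (by simp [midW]) (by omega) rfl, ?_⟩⟩
    · have : zpt (x.1, x.2 + sge e * (32 * ℓ)) (2 * (16 * (S ^ 3 - 1)) * ℓ) (due e) =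
            (x.1, x.2 + sge e * (32 * S ^ 3 * ℓ)) := by
        cases e <;> refine Prod.ext ?_ ?_ <;> simp only [zpt, due, sge] <;> simp [-Nat.cast_mul, -Nat.cast_sub] <;>
          rw [c1] <;> push_cast <;> ring
      rw [this, PP13_sd0]; simp only [midW]
      rw [zero_add]
      exact Nat.mul_le_mul_right _ (by omega)
    · refine PP13_sd2 _ _ _ ?_
      have h1 : (16 * S : ℤ) ≤ S ^ 3 := by exact_mod_cast hS3
      have h2 : (4 : ℤ) ≤ S := by exact_mod_cast hS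
      have h3 : (1 : ℤ) ≤ ℓ := by exact_mod_cast hℓ
      cases e
      · simp only [zpt, due, sge, midW]
        simp
        rw [le_abs]
        right
        nlinarith [mul_le_mul_of_nonneg_right h1 (by omega : (0 : ℤ) ≤ ℓ), mul_le_mul_of_nonneg_right h2 (by omega : (0 : ℤ) ≤ ℓ)]
      · simp only [zpt, due, sge, midW]
        simp
        rw [le_abs]
        left
        nlinarith [mul_le_mul_of_nonneg_right h1 (by omega : (0 : ℤ) ≤ ℓ), mul_le_mul_of_nonneg_right h2 (by omega : (0 : ℤ) ≤ ℓ)]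

theorem PP13_size (Ws : List Wire) (ℓ₁ : ℕ) (h : ∀ w ∈ Ws, ℓ₁ ≤ w.l ∧ ∀ q ∈ w.bg, ℓ₁ ≤ q.2) :
    ∀ q ∈ Ws.flatMap Wire.all, ℓ₁ ≤ q.2 := by
  intro q hq
  obtain ⟨w, hw, hq⟩ := List.mem_flatMap.1 hq
  obtain ⟨h1, h2⟩ := h w hw
  unfold Wire.all at hq
  rcases List.mem_append.1 hq with hq | hq
  · obtain ⟨g, -, rfl⟩ := List.mem_map.1 hq
    exact h1
  · exact h2 q hq

theorem PP13 : PP13_stmt := by
  refine ⟨?_, ?_, ?_⟩
  · intro x ℓ₁ ℓ S ℓ₃ h1 h2 h3 h4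
    constructor
    · intro w hw
      simp only [Wblk, List.flatMap_cons, List.flatMap_nil, List.append_nil, List.mem_append,
        List.mem_cons, List.not_mem_nil, or_false] at hw
      rcases hw with (rfl | rfl | rfl | rfl | rfl | rfl) | (rfl | rfl | rfl | rfl | rfl | rfl)
      · exact PP13_hubB _ _ _ h1
      · exact PP13_hubB _ _ _ h1
      · exact PP13_midX _ _ _ _ h2
      · exact PP13_midY _ _ _ _ h2 h3
      · exact PP13_midZ _ _ _ _ h2 h3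
      · exact PP13_outB _ _ _ h4
      · exact PP13_hubB _ _ _ h1
      · exact PP13_hubB _ _ _ h1
      · exact PP13_midX _ _ _ _ h2
      · exact PP13_midY _ _ _ _ h2 h3
      · exact PP13_midZ _ _ _ _ h2 h3
      · exact PP13_outB _ _ _ h4
    · intro w hw
      simp only [Wwht, List.flatMap_cons, List.flatMap_nil, List.append_nil, List.mem_append,
        List.mem_cons, List.not_mem_nil, or_false] at hw
      rcases hw with (rfl | rfl | rfl | rfl) | (rfl | rfl | rfl | rfl)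
      · exact PP13_hubW _ _ _ h1
      · exact PP13_hubW _ _ _ h1
      · exact PP13_midW _ _ _ _ h2 h3
      · exact PP13_hubW _ _ _ h4
      · exact PP13_hubW _ _ _ h1
      · exact PP13_hubW _ _ _ h1
      · exact PP13_midW _ _ _ _ h2 h3
      · exact PP13_hubW _ _ _ h4
  · intro x ℓ₁ ℓ S ℓ₃ h1 h2 h3
    have h5 : ℓ ≤ S ^ 3 * ℓ := Nat.le_mul_of_pos_left _ (by positivity)
    constructor
    · refine PP13_size _ _ ?_
      intro w hw
      simp only [Wblk, List.flatMap_cons, List.flatMap_nil, List.append_nil, List.mem_append,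
        List.mem_cons, List.not_mem_nil, or_false] at hw
      rcases hw with (rfl | rfl | rfl | rfl | rfl | rfl) | (rfl | rfl | rfl | rfl | rfl | rfl) <;>
        simp [hubB, midX, midY, midZ, outB] <;> omega
    · refine PP13_size _ _ ?_
      intro w hw
      simp only [Wwht, List.flatMap_cons, List.flatMap_nil, List.append_nil, List.mem_append,
        List.mem_cons, List.not_mem_nil, or_false] at hw
      rcases hw with (rfl | rfl | rfl | rfl) | (rfl | rfl | rfl | rfl) <;>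
        simp [hubW, midW] <;> omega
  · intro S
    refine ⟨(Lblk (0, 0) 1 1 S 1).length + (Lwht (0, 0) 1 1 S 1).length, ?_⟩
    intro x ℓ₁ ℓ ℓ₃
    have e1 : (Lblk x ℓ₁ ℓ S ℓ₃).length = (Lblk (0, 0) 1 1 S 1).length := by
      simp [Lblk, Wblk, Wire.all, Wire.cel, scel, hubB, midX, midY, midZ, outB]
    have e2 : (Lwht x ℓ₁ ℓ S ℓ₃).length = (Lwht (0, 0) 1 1 S 1).length := by
      simp [Lwht, Wwht, Wire.all, Wire.cel, scel, hubW, midW]
    omega

end TP
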